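import Pool.Agent.Helper78.W3.StD

/-!
# Project W3, module Rel: the relation between the three plane functions of a symbol
-/

set_option autoImplicit false

open Pool.Agent.Helper78.W3 Pool.Agent.Helper14.W3

namespace Pool.Agent.Helper63.W3

theorem hRel (hTre : S3Tre) : S3Rel := by
  intro R _ r s G hG x y
  have h0 := hTre R _ r s G hG 1 0 1 1 1 0 0 1 (by norm_num) (by simp) (by simp) x y
  have h1 := hTre R _ r s G hG (-2) 1 (-1) 4 1 0 1 1 (by norm_num) (by simp) (by simp) x y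
  have h2 := hTre R _ r s G hG 1 0 1 1 1 0 (-1) 1 (by norm_num) (by simp) (by simp) x y
  have h3 := hTre R _ r s G hG (-2) (-1) (-1) (-5) 1 0 (-1) 1 (by norm_num) (by simp) (by simp) x y
  norm_num at h0 h1 h2 h3
  have e0 : e3 0 = 0 := rfl
  have e1 : e3 1 = 1 := rfl
  have e2 : e3 2 = -1 := rfl
  have k0 : (pf G 0 : ZMod (3 ^ r) → ZMod (3 ^ s) → R) = edge3 1 1 0 0 1 G := by
    funext x y; simp only [pf, e0]
  have k1 : (pf G 1 : ZMod (3 ^ r) → ZMod (3 ^ s) → R) = edge3 1 1 0 1 1 G := by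
    funext x y; simp only [pf, e1]
  have k2 : (pf G 2 : ZMod (3 ^ r) → ZMod (3 ^ s) → R) = edge3 1 1 0 (-1) 1 G := by
    funext x y; simp only [pf, e2]
  change (pf G 0 : ZMod (3 ^ r) → ZMod (3 ^ s) → R) x y - tr 1 0 1 1 (pf G 0) x y -
    ((pf G 1 : ZMod (3 ^ r) → ZMod (3 ^ s) → R) x y - tr (-2) 1 (-1) 4 (pf G 1) x y) +
    (tr 1 0 1 1 (pf G 2) x y - tr (-2) (-1) (-1) (-5) (pf G 2) x y) = 0
  rw [k0, k1, k2, ← h0, ← h1, ← h2, ← h3]
  unfold edge3
  abel

end Pool.Agent.Helper63.W3
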